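import Mathlib
import Pool.Agent.Helper23_LAP.Stmts

/-!
# LAP module HAL: Hall (2.8)
-/

set_option autoImplicit false

namespace Pool.Agent.LAP.H33

open scoped Classical

/-- The allowed sampled neighbours of `A`. -/
noncomputable def nb {α β : Type} [Fintype β] (F Sm : Finset (α × β)) (Y : Finset β)
    (A : Finset α) : Finset β :=
  Finset.univ.filter fun y => y ∈ Y ∧ ∃ x ∈ A, (x, y) ∈ Sm ∧ (x, y) ∉ F

theorem mem_uni_inl {α β : Type} (A : Finset α) (B : Finset β) (x : α) :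
    (Sum.inl x : α ⊕ β) ∈ uni A B ↔ x ∈ A := by
  simp [uni]

theorem mem_uni_inr {α β : Type} (A : Finset α) (B : Finset β) (y : β) :
    (Sum.inr y : α ⊕ β) ∈ uni A B ↔ y ∈ B := by
  simp [uni]

theorem mem_nb {α β : Type} [Fintype β] (F Sm : Finset (α × β)) (Y : Finset β)
    (A : Finset α) (y : β) :
    y ∈ nb F Sm Y A ↔ y ∈ Y ∧ ∃ x ∈ A, (x, y) ∈ Sm ∧ (x, y) ∉ F := by
  simp [nb]

/-- If all vertices of `A` can be reached from `a` then the pair is connected. -/
theorem con_of_reach {α β : Type} [Fintype β] (E F Sm : Finset (α × β)) (Y : Finset β)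
    (hSm : Sm ⊆ E) (A : Finset α) (a : α) (ha : a ∈ A)
    (h : ∀ x ∈ A, Relation.ReflTransGen
      (fun u v => v ∈ uni A (nb F Sm Y A) ∧ sadj E u v) (Sum.inl a) (Sum.inl x)) :
    Con (sadj E) (uni A (nb F Sm Y A)) := by
  have hsym : ∀ u v, u ∈ uni A (nb F Sm Y A) → v ∈ uni A (nb F Sm Y A) → sadj E u v →
      sadj E v u := by
    intro u v _ _ huv
    rcases u with u | u <;> rcases v with v | v <;> simp_all [sadj]
  have hall : ∀ u ∈ uni A (nb F Sm Y A), Relation.ReflTransGen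
      (fun u v => v ∈ uni A (nb F Sm Y A) ∧ sadj E u v) (Sum.inl a) u := by
    intro u hu
    rcases u with x | y
    · exact h x ((mem_uni_inl _ _ _).1 hu)
    · have hy := (mem_uni_inr _ _ _).1 hu
      obtain ⟨-, x, hx, hxy, -⟩ := (mem_nb _ _ _ _ _).1 hy
      exact (h x hx).tail ⟨hu, by simpa [sadj] using hSm hxy⟩
  have hback : ∀ u, Relation.ReflTransGen
      (fun u v => v ∈ uni A (nb F Sm Y A) ∧ sadj E u v) (Sum.inl a) u →
      Relation.ReflTransGen
      (fun u v => v ∈ uni A (nb F Sm Y A) ∧ sadj E u v) u (Sum.inl a) := by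
    intro u hu
    have haU : (Sum.inl a : α ⊕ β) ∈ uni A (nb F Sm Y A) := (mem_uni_inl _ _ _).2 ha
    have : u ∈ uni A (nb F Sm Y A) ∧ Relation.ReflTransGen
      (fun u v => v ∈ uni A (nb F Sm Y A) ∧ sadj E u v) u (Sum.inl a) := by
      induction hu with
      | refl => exact ⟨haU, Relation.ReflTransGen.refl⟩
      | tail _ hbc ih =>
        exact ⟨hbc.1, Relation.ReflTransGen.head ⟨ih.1, hsym _ _ ih.1 hbc.1 hbc.2⟩ ih.2⟩
    exact this.2
  refine ⟨⟨Sum.inl a, (mem_uni_inl _ _ _).2 ha⟩, fun u hu v hv => ?_⟩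
  exact (hback u (hall u hu)).trans (hall v hv)

theorem key {α β : Type} [Fintype α] [Fintype β] (E F Sm : Finset (α × β))
    (X X' : Finset α) (Y : Finset β) (hSm : Sm ⊆ E) (hH : Hal E F Sm X X' Y) :
    ∀ A : Finset α, A ⊆ X \ X' → A.card ≤ (nb F Sm Y A).card := by
  intro A
  induction A using Finset.strongInduction with
  | H A ih =>
    intro hA
    by_contra hlt
    push Not at hlt
    have hne : A.Nonempty := by
      rw [← Finset.card_pos]; omega
    obtain ⟨a, ha⟩ := hne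
    have hreach : ∀ x ∈ A, Relation.ReflTransGen
        (fun u v => v ∈ uni A (nb F Sm Y A) ∧ sadj E u v) (Sum.inl a) (Sum.inl x) := by
      by_contra hx
      push Not at hx
      obtain ⟨x₀, hx₀, hx₀r⟩ := hx
      set A1 := A.filter fun x => Relation.ReflTransGen
        (fun u v => v ∈ uni A (nb F Sm Y A) ∧ sadj E u v) (Sum.inl a) (Sum.inl x) with hA1
      set A2 := A.filter fun x => ¬ Relation.ReflTransGen
        (fun u v => v ∈ uni A (nb F Sm Y A) ∧ sadj E u v) (Sum.inl a) (Sum.inl x) with hA2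
      have ha1 : a ∈ A1 := Finset.mem_filter.2 ⟨ha, Relation.ReflTransGen.refl⟩
      have hx2 : x₀ ∈ A2 := Finset.mem_filter.2 ⟨hx₀, hx₀r⟩
      have hs1 : A1 ⊂ A := by
        refine Finset.ssubset_iff_subset_ne.2 ⟨Finset.filter_subset _ _, fun h => ?_⟩
        have : x₀ ∈ A1 := by rw [h]; exact hx₀
        exact hx₀r (Finset.mem_filter.1 this).2
      have hs2 : A2 ⊂ A := by
        refine Finset.ssubset_iff_subset_ne.2 ⟨Finset.filter_subset _ _, fun h => ?_⟩
        have : a ∈ A2 := by rw [h]; exact ha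
        exact (Finset.mem_filter.1 this).2 Relation.ReflTransGen.refl
      have h1 := ih A1 hs1 (hs1.1.trans hA)
      have h2 := ih A2 hs2 (hs2.1.trans hA)
      have hdis : Disjoint (nb F Sm Y A1) (nb F Sm Y A2) := by
        rw [Finset.disjoint_left]
        intro y hy1 hy2
        obtain ⟨hyY, x1, hx1, hx1S, hx1F⟩ := (mem_nb _ _ _ _ _).1 hy1
        obtain ⟨-, x2, hx2', hx2S, -⟩ := (mem_nb _ _ _ _ _).1 hy2
        have hx1A := (Finset.mem_filter.1 hx1)
        have hx2A := (Finset.mem_filter.1 hx2')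
        have hyN : y ∈ nb F Sm Y A := (mem_nb _ _ _ _ _).2 ⟨hyY, x1, hx1A.1, hx1S, hx1F⟩
        apply hx2A.2
        refine (hx1A.2.tail (b := Sum.inl x1) (c := Sum.inr y)
          ⟨(mem_uni_inr _ _ _).2 hyN, by simpa [sadj] using hSm hx1S⟩).tail
          ⟨(mem_uni_inl _ _ _).2 hx2A.1, by simpa [sadj] using hSm hx2S⟩
      have hsub : nb F Sm Y A1 ∪ nb F Sm Y A2 ⊆ nb F Sm Y A := by
        intro y hy
        rcases Finset.mem_union.1 hy with hy | hy
        · obtain ⟨hyY, x, hx, h⟩ := (mem_nb _ _ _ _ _).1 hy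
          exact (mem_nb _ _ _ _ _).2 ⟨hyY, x, (Finset.mem_filter.1 hx).1, h⟩
        · obtain ⟨hyY, x, hx, h⟩ := (mem_nb _ _ _ _ _).1 hy
          exact (mem_nb _ _ _ _ _).2 ⟨hyY, x, (Finset.mem_filter.1 hx).1, h⟩
      have hcard := Finset.card_le_card hsub
      rw [Finset.card_union_of_disjoint hdis] at hcard
      have hsum : A1.card + A2.card = A.card := Finset.card_filter_add_card_filter_not _
      omega
    have hcon := con_of_reach E F Sm Y hSm A a ha hreach
    have hAX : A ⊆ X := fun x hx => (Finset.mem_sdiff.1 (hA hx)).1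
    have hAX' : Disjoint A X' := by
      rw [Finset.disjoint_left]
      intro x hx
      exact (Finset.mem_sdiff.1 (hA hx)).2
    have hBY : nb F Sm Y A ⊆ Y := fun y hy => ((mem_nb _ _ _ _ _).1 hy).1
    obtain ⟨e, heS, heF, he1, he2, he3⟩ := hH A (nb F Sm Y A) hAX hAX' hBY hlt hcon
    exact he3 ((mem_nb _ _ _ _ _).2 ⟨he2, e.1, he1, heS, heF⟩)

theorem hal : HALStmt := by
  intro α β _ _ E F Sm X X' Y hSm hH
  have hk := key E F Sm X X' Y hSm hH
  have hall : ∀ s : Finset ↥(X \ X'), s.card ≤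
      (s.biUnion fun x => nb F Sm Y {(x : α)}).card := by
    intro s
    have h := hk (s.image Subtype.val) (by
      intro x hx
      obtain ⟨z, -, rfl⟩ := Finset.mem_image.1 hx
      exact z.2)
    rw [Finset.card_image_of_injective _ Subtype.val_injective] at h
    refine h.trans (Finset.card_le_card ?_)
    intro y hy
    obtain ⟨hyY, x, hx, hxy⟩ := (mem_nb _ _ _ _ _).1 hy
    obtain ⟨z, hz, rfl⟩ := Finset.mem_image.1 hx
    exact Finset.mem_biUnion.2 ⟨z, hz, (mem_nb _ _ _ _ _).2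
      ⟨hyY, z, Finset.mem_singleton_self _, hxy⟩⟩
  obtain ⟨f, hf, hft⟩ := (Finset.all_card_le_biUnion_card_iff_exists_injective _).1 hall
  have hft' : ∀ x : ↥(X \ X'), f x ∈ Y ∧ ((x : α), f x) ∈ Sm ∧ ((x : α), f x) ∉ F := by
    intro x
    obtain ⟨h1, z, hz, h2⟩ := (mem_nb _ _ _ _ _).1 (hft x)
    rw [Finset.mem_singleton] at hz
    subst hz
    exact ⟨h1, h2⟩
  refine ⟨Finset.univ.image fun x : ↥(X \ X') => ((x : α), f x), ?_, ⟨?_, ?_⟩, ?_, ?_⟩
  · intro e he
    obtain ⟨x, -, rfl⟩ := Finset.mem_image.1 he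
    exact (hft' x).2.1
  · intro x y y' hy hy'
    obtain ⟨z, -, hz⟩ := Finset.mem_image.1 hy
    obtain ⟨z', -, hz'⟩ := Finset.mem_image.1 hy'
    simp only [Prod.mk.injEq] at hz hz'
    have : z = z' := Subtype.ext (hz.1.trans hz'.1.symm)
    subst this
    exact hz.2.symm.trans hz'.2
  · intro x x' y hy hy'
    obtain ⟨z, -, hz⟩ := Finset.mem_image.1 hy
    obtain ⟨z', -, hz'⟩ := Finset.mem_image.1 hy'
    simp only [Prod.mk.injEq] at hz hz'
    have : z = z' := hf (hz.2.trans hz'.2.symm)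
    subst this
    exact hz.1.symm.trans hz'.1
  · rw [Finset.disjoint_left]
    intro e he
    obtain ⟨x, -, rfl⟩ := Finset.mem_image.1 he
    exact (hft' x).2.2
  · intro x hx
    simp only [dom, Finset.mem_image]
    exact ⟨(x, f ⟨x, hx⟩), ⟨⟨x, hx⟩, Finset.mem_univ _, rfl⟩, rfl⟩

end Pool.Agent.LAP.H33
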