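import Mathlib
import Pool.Agent.Helper23_LAP.Stmts

/-!
# LAP module SNK: the sinks exist (3.1)
-/

set_option autoImplicit false

namespace Pool.Agent.LAP.H33

open scoped Classical

section lifts

variable {W U S : Type} [Fintype U] [Fintype S] {r : W → W → Prop} {L : ℕ} {loc : U → Finset W}

/-- An event at each site, as an event for `(Q, Δ)`. -/
def lift1 (f : W → Set (U → S)) (Q Δ : Finset W) : Set (U → S) :=
  {ω | Δ = ∅ ∧ ∃ w, Q = {w} ∧ ω ∈ f w}

/-- An event at each linked set, as an event for `(Q, Δ)`. -/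
def lift2 (r : W → W → Prop) (f : Finset W → Set (U → S)) (Q Δ : Finset W) : Set (U → S) :=
  {ω | Δ = ∅ ∧ Lnk r Q ∧ ω ∈ f Q}

theorem ev_lift1 [DecidableEq W] {f : W → Set (U → S)} (h : ∀ w, Ev r L loc (f w) {w})
    (Q Δ : Finset W) : Ev r L loc (lift1 f Q Δ) (Q ∪ Δ) := by
  by_cases hΔ : Δ = ∅
  · by_cases hQ : ∃ w, Q = {w}
    · obtain ⟨w, rfl⟩ := hQ
      subst hΔ
      have : lift1 f {w} ∅ = f w := by
        ext ω
        constructor
        · rintro ⟨-, v, hv, h⟩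
          rw [Finset.singleton_inj] at hv
          rw [hv]; exact h
        · intro h
          exact ⟨rfl, w, rfl, h⟩
      rw [this, Finset.union_empty]
      exact h w
    · left
      ext ω
      simp only [lift1, Set.mem_setOf_eq, Set.mem_empty_iff_false, iff_false]
      rintro ⟨-, w, hw, -⟩
      exact hQ ⟨w, hw⟩
  · left
    ext ω
    simp [lift1, hΔ]

theorem ev_lift2 [DecidableEq W] {f : Finset W → Set (U → S)}
    (h : ∀ Q, Lnk r Q → Ev r L loc (f Q) Q) (Q Δ : Finset W) :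
    Ev r L loc (lift2 r f Q Δ) (Q ∪ Δ) := by
  by_cases hΔ : Δ = ∅
  · by_cases hQ : Lnk r Q
    · subst hΔ
      have : lift2 r f Q ∅ = f Q := by
        ext ω
        simp [lift2, hQ]
      rw [this, Finset.union_empty]
      exact h Q hQ
    · left
      ext ω
      simp [lift2, hQ]
  · left
    ext ω
    simp [lift2, hΔ]

end lifts

theorem sadj_deg {α β : Type} [Fintype α] [Fintype β] (E : Finset (α × β)) (k : ℕ)
    (hE : Reg E k) (u : α ⊕ β) : (Finset.univ.filter (sadj E u)).card ≤ k := by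
  rcases u with x | y
  · have : Finset.univ.filter (sadj E (Sum.inl x)) ⊆ (out E x).image Sum.inr := by
      intro v hv
      have hv := (Finset.mem_filter.1 hv).2
      rcases v with v | v
      · exact absurd hv (by simp [sadj])
      · exact Finset.mem_image.2 ⟨v, by simpa [out, sadj] using hv, rfl⟩
    exact (Finset.card_le_card this).trans (Finset.card_image_le.trans (hE.1 x).le)
  · have : Finset.univ.filter (sadj E (Sum.inr y)) ⊆ (inn E y).image Sum.inl := by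
      intro v hv
      have hv := (Finset.mem_filter.1 hv).2
      rcases v with v | v
      · exact Finset.mem_image.2 ⟨v, by simpa [inn, sadj] using hv, rfl⟩
      · exact absurd hv (by simp [sadj])
    exact (Finset.card_le_card this).trans (Finset.card_image_le.trans (hE.2 y).le)

theorem sadj_symm {α β : Type} (E : Finset (α × β)) (u v : α ⊕ β) (h : sadj E u v) :
    sadj E v u := by
  rcases u with u | u <;> rcases v with v | v <;> simp_all [sadj]

theorem k_ge {k L q : ℕ} {D δ η r T Rr ζ : ℝ} {P P' : ℕ}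
    (hp : Prm k L q D δ η r T Rr ζ P P') : 2 ≤ k := by
  have h1 : (10 : ℝ) ^ 4 ≤ L := by exact_mod_cast hp.L4
  have h2 : (2 : ℝ) ≤ (L : ℝ) ^ 19 := by
    calc (2 : ℝ) ≤ (10 ^ 4 : ℝ) ^ 1 := by norm_num
      _ ≤ (L : ℝ) ^ 1 := by simpa using h1
      _ ≤ (L : ℝ) ^ 19 := pow_le_pow_right₀ (by linarith) (by norm_num)
  have h3 : (2 : ℝ) ≤ k := h2.trans (hp.D1.trans hp.D2)
  exact_mod_cast h3

theorem P'_pos {k L q : ℕ} {D δ η r T Rr ζ : ℝ} {P P' : ℕ}
    (hp : Prm k L q D δ η r T Rr ζ P P') : 0 < P' := by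
  have h1 : (10 : ℝ) ^ 4 ≤ L := by exact_mod_cast hp.L4
  have h2 : (0 : ℝ) < (L : ℝ) ^ 4 := by positivity
  have h3 := hp.s3
  have h4 : (0 : ℝ) < P' := by linarith
  exact_mod_cast h4

theorem snk (hSLL : SLLStmt) (h1 : SK1Stmt) (h2 : SK2Stmt) (h3 : SK3Stmt) (h4 : SK4Stmt)
    (h5 : SK5Stmt) : SNKStmt := by
  intro k L q D δ η r T Rr ζ P P' hp α β _ _ E R X Y hE hSt
  haveI : Nonempty (Fin P') := ⟨⟨0, P'_pos hp⟩⟩
  have hk2 := k_ge hp
  have e1 := fun c => h1 k L q D δ η r T Rr ζ P P' hp α β E R X Y hSt.cl c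
  have e2 := fun c => h2 k L q D δ η r T Rr ζ P P' hp α β E R X Y hSt.cl c
  have e3 := fun c => h3 k L q D δ η r T Rr ζ P P' hp α β E R X Y hSt.cl c
  have e4 := fun c => h4 k L q D δ η r T Rr ζ P P' hp α β E R X Y hSt.cl c
  have e5 := h5 k L q D δ η r T Rr ζ P P' hp α β E X Y hSt.tx hSt.ty
  let Ω : Type := Fin q × (α ⊕ β) → Fin P'
  -- the events
  let B1 : Fin q → Finset (α ⊕ β) → Set Ω := fun c Q => {ω | ¬
    (((((crs R (X c) (Y c) (clA E (L ^ 2) Q) (clB E (L ^ 2) Q)).filter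
        fun a => a.1 ∈ skX X ω c).card : ℕ) : ℝ) +
      (((crs R (X c) (Y c) (clA E (L ^ 2) Q) (clB E (L ^ 2) Q)).filter
        fun a => a.2 ∈ skY Y ω c).card : ℕ) ≤
      8 / (L : ℝ) ^ 4 * cq E R (X c) (Y c) L Q + 2 * (L : ℝ) ^ 2 * Q.card * D)}
  let B2 : Fin q → Finset (α ⊕ β) → Set Ω := fun c Q => {ω | ¬
    (((Y c ∩ clB E (L ^ 2) Q ∩ skY Y ω c).card : ℝ) ≤
      (1 + 1 / (L : ℝ) ^ 4) / P' * (Y c ∩ clB E (L ^ 2) Q).card + (L : ℝ) ^ 6 * Q.card)}
  let B3 : Fin q → Finset (α ⊕ β) → Set Ω := fun c Q => {ω | ¬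
    (((X c ∩ clA E (L ^ 2) Q ∩ skX X ω c).card : ℝ) ≤
      (1 + 1 / (L : ℝ) ^ 4) / P' * (X c ∩ clA E (L ^ 2) Q).card + (L : ℝ) ^ 6 * Q.card)}
  let B4 : Fin q → α ⊕ β → Set Ω := fun c w => Sum.elim
    (fun x => {ω : Ω | ¬ ((1 - 9 / (L : ℝ) ^ 3) * ζ ≤ ((out R x ∩ skY Y ω c).card : ℝ))})
    (fun y => {ω : Ω | ¬ ((1 - 9 / (L : ℝ) ^ 3) * ζ ≤ ((inn R y ∩ skX X ω c).card : ℝ))}) w
  let B5 : Fin q → α ⊕ β → Set Ω := fun c w => Sum.elim
    (fun x => {ω : Ω | ¬ (((out E x ∩ skY Y ω c).card : ℝ) ≤ 5 / (L : ℝ) ^ 4 * D)})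
    (fun y => {ω : Ω | ¬ (((inn E y ∩ skX X ω c).card : ℝ) ≤ 5 / (L : ℝ) ^ 4 * D)}) w
  let B6 : α ⊕ β → Set Ω := fun w => Sum.elim
    (fun x => {ω : Ω | ¬ ((((Finset.univ.filter fun c => x ∈ skX X ω c).card : ℕ) : ℝ) ≤
      2 * (L : ℝ) ^ 2)})
    (fun y => {ω : Ω | ¬ ((((Finset.univ.filter fun c => y ∈ skY Y ω c).card : ℕ) : ℝ) ≤
      2 * (L : ℝ) ^ 2)}) w
  let Bad : Option (Fin q × Fin 5) → Finset (α ⊕ β) → Finset (α ⊕ β) → Set Ω := fun j Q Δ =>
    match j with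
    | none => lift1 B6 Q Δ
    | some (c, 0) => lift2 (sadj E) (B1 c) Q Δ
    | some (c, 1) => lift2 (sadj E) (B2 c) Q Δ
    | some (c, 2) => lift2 (sadj E) (B3 c) Q Δ
    | some (c, 3) => lift1 (B4 c) Q Δ
    | some (c, 4) => lift1 (B5 c) Q Δ
  have hBad : ∀ j Q Δ, Ev (sadj E) L (locK (α := α) (β := β) (q := q)) (Bad j Q Δ) (Q ∪ Δ) := by
    intro j Q Δ
    match j with
    | none =>
      refine ev_lift1 (fun w => ?_) Q Δ
      rcases w with x | y
      · exact e5.1 x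
      · exact e5.2 y
    | some (c, 0) => exact ev_lift2 (fun Q hQ => e1 c Q hQ) Q Δ
    | some (c, 1) => exact ev_lift2 (fun Q hQ => (e2 c Q hQ).1) Q Δ
    | some (c, 2) => exact ev_lift2 (fun Q hQ => (e2 c Q hQ).2) Q Δ
    | some (c, 3) =>
      refine ev_lift1 (fun w => ?_) Q Δ
      rcases w with x | y
      · exact (e3 c).1 x
      · exact (e3 c).2 y
    | some (c, 4) =>
      refine ev_lift1 (fun w => ?_) Q Δ
      rcases w with x | y
      · exact (e4 c).1 x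
      · exact (e4 c).2 y
  obtain ⟨ω, hω⟩ := hSLL (α ⊕ β) (Fin q × (α ⊕ β)) (Fin P') (Option (Fin q × Fin 5)) (sadj E)
    k L locK Bad (sadj_symm E) (sadj_deg E k hE) hk2 hp.L4 hp.k2
    (fun u => by simp [locK])
    (fun w => by
      have : (Finset.univ.filter fun u : Fin q × (α ⊕ β) => w ∈ locK u) ⊆
          (Finset.univ : Finset (Fin q)).image fun c => (c, w) := by
        intro u hu
        have := (Finset.mem_filter.1 hu).2
        simp only [locK, Finset.mem_singleton] at this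
        exact Finset.mem_image.2 ⟨u.1, Finset.mem_univ _, by rw [this]⟩
      have h6 := (Finset.card_le_card this).trans Finset.card_image_le
      rw [Finset.card_univ, Fintype.card_fin] at h6
      exact le_of_eq_of_le (by congr) (h6.trans (hp.q1.trans (Nat.le_self_pow (by norm_num) k))))
    (by
      have h5 : Fintype.card (Option (Fin q × Fin 5)) = q * 5 + 1 := by simp
      rw [h5]
      have hq := hp.q1
      calc q * 5 + 1 ≤ k * 5 + 1 := by omega
        _ ≤ 2 * 2 * 2 * k := by omega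
        _ ≤ k * k * k * k := by gcongr
        _ = k ^ 4 := by ring)
    (fun j Q Δ => by convert hBad j Q Δ)
  refine ⟨skX X ω, skY Y ω, ?_⟩
  refine ⟨fun c => Finset.filter_subset _ _, fun c => Finset.filter_subset _ _, ?_, ?_, ?_, ?_,
    ?_⟩
  · intro c Q hQ
    by_contra h
    exact hω (some (c, 0)) Q ∅ ⟨rfl, hQ, h⟩
  · intro c Q hQ
    constructor
    · by_contra h
      exact hω (some (c, 1)) Q ∅ ⟨rfl, hQ, h⟩
    · by_contra h
      exact hω (some (c, 2)) Q ∅ ⟨rfl, hQ, h⟩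
  · intro c
    constructor
    · intro x
      by_contra h
      exact hω (some (c, 3)) {Sum.inl x} ∅ ⟨rfl, Sum.inl x, rfl, h⟩
    · intro y
      by_contra h
      exact hω (some (c, 3)) {Sum.inr y} ∅ ⟨rfl, Sum.inr y, rfl, h⟩
  · intro c
    constructor
    · intro x
      by_contra h
      exact hω (some (c, 4)) {Sum.inl x} ∅ ⟨rfl, Sum.inl x, rfl, h⟩
    · intro y
      by_contra h
      exact hω (some (c, 4)) {Sum.inr y} ∅ ⟨rfl, Sum.inr y, rfl, h⟩
  · constructor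
    · intro x
      by_contra h
      exact hω none {Sum.inl x} ∅ ⟨rfl, Sum.inl x, rfl, h⟩
    · intro y
      by_contra h
      exact hω none {Sum.inr y} ∅ ⟨rfl, Sum.inr y, rfl, h⟩

end Pool.Agent.LAP.H33
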